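import Mathlib
import Pool.Agent.H25.GEn

namespace Pool.Agent.Results.MP_8ce0fa_co.Cex

open SimpleGraph Finset

variable {V : Type} [Fintype V] [DecidableEq V]

/-- the sum of the absolute values of the adjacency eigenvalues -/
noncomputable def energy (G : SimpleGraph V) [DecidableRel G.Adj] : ℝ :=
  ∑ k, |(G.isHermitian_adjMatrix ℝ).eigenvalues k|

/-- delete the edge `ij` and add a new vertex `none` adjacent to exactly `i` and `j` -/
def subdiv (G : SimpleGraph V) (i j : V) : SimpleGraph (Option V) where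
  Adj
    | none, none => False
    | none, some b => b = i ∨ b = j
    | some a, none => a = i ∨ a = j
    | some a, some b => G.Adj a b ∧ s(a, b) ≠ s(i, j)
  symm := ⟨by
    rintro (_ | a) (_ | b) h
    · exact h
    · exact h
    · exact h
    · exact ⟨h.1.symm, by rw [Sym2.eq_swap]; exact h.2⟩⟩
  loopless := ⟨by rintro (_ | _) h; exacts [h, h.1.ne rfl]⟩

instance (G : SimpleGraph V) [DecidableRel G.Adj] (i j : V) : DecidableRel (subdiv G i j).Adj :=
  fun a b => by cases a <;> cases b <;> simp only [subdiv] <;> infer_instance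

/-- `ij` is the central edge of an induced diamond -/
def Cond1 (G : SimpleGraph V) (i j : V) : Prop :=
  ∃ a b, a ≠ b ∧ G.Adj i a ∧ G.Adj j a ∧ G.Adj i b ∧ G.Adj j b ∧ ¬ G.Adj a b

def Cond2 (G : SimpleGraph V) [DecidableRel G.Adj] (i j : V) : Prop :=
  insert i (G.neighborSet i) = insert j (G.neighborSet j) ∧
    G.IsClique (insert i (G.neighborSet i)) ∧
    ∀ w ∈ insert i (G.neighborSet i), w ≠ i → w ≠ j → G.degree i < G.degree w

def G0 : SimpleGraph (Fin 11) := fromRel (fun a b => (a, b) ∈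
  [(0, 1), (0, 2), (1, 2), (2, 3), (2, 4), (3, 4), (0, 5), (1, 5), (2, 5), (3, 5), (4, 5), (0, 6),
    (2, 6), (3, 6), (4, 6), (5, 6), (3, 7), (4, 7), (5, 7), (0, 8), (1, 8), (2, 8), (3, 8), (5,
    8), (7, 8), (2, 9), (3, 9), (4, 9), (7, 9), (8, 9), (0, 10), (1, 10), (2, 10), (4, 10), (5,
    10), (7, 10), (8, 10), (9, 10)])

instance : DecidableRel G0.Adj := by unfold G0; infer_instance

def ent (L : List (List ℤ)) (i j : ℕ) : ℤ := (L.getD i []).getD j 0

def ix : Option (Fin 11) → ℕ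
  | none => 0
  | some a => a + 1

def A0 : List (List ℤ) := [[0, 1, 1, 0, 0, 1, 1, 0, 1, 0, 1], [1, 0, 1, 0, 0, 1, 0, 0, 1, 0, 1],
    [1, 1, 0, 1, 1, 1, 1, 0, 1, 1, 1], [0, 0, 1, 0, 1, 1, 1, 1, 1, 1, 0], [0, 0, 1, 1, 0, 1, 1, 1,
    0, 1, 1], [1, 1, 1, 1, 1, 0, 1, 1, 1, 0, 1], [1, 0, 1, 1, 1, 1, 0, 0, 0, 0, 0], [0, 0, 0, 1,
    1, 1, 0, 0, 1, 1, 1], [1, 1, 1, 1, 0, 1, 0, 1, 0, 1, 1], [0, 0, 1, 1, 1, 0, 0, 1, 1, 0, 1],
    [1, 1, 1, 0, 1, 1, 0, 1, 1, 1, 0]]

def B0 : List (List ℤ) := [[0, 1, 1, 0, 0, 0, 0, 0, 0, 0, 0, 0], [1, 0, 0, 1, 0, 0, 1, 1, 0, 1, 0,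
    1], [1, 0, 0, 1, 0, 0, 1, 0, 0, 1, 0, 1], [0, 1, 1, 0, 1, 1, 1, 1, 0, 1, 1, 1], [0, 0, 0, 1,
    0, 1, 1, 1, 1, 1, 1, 0], [0, 0, 0, 1, 1, 0, 1, 1, 1, 0, 1, 1], [0, 1, 1, 1, 1, 1, 0, 1, 1, 1,
    0, 1], [0, 1, 0, 1, 1, 1, 1, 0, 0, 0, 0, 0], [0, 0, 0, 0, 1, 1, 1, 0, 0, 1, 1, 1], [0, 1, 1,
    1, 1, 0, 1, 0, 1, 0, 1, 1], [0, 0, 0, 1, 1, 1, 0, 0, 1, 1, 0, 1], [0, 1, 1, 1, 0, 1, 1, 0, 1,
    1, 1, 0]]

def S0 : List (List ℤ) := [[-39052, 52947, 34373, -12843, -12843, 34373, 26934, -26045, 21171,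
    -26045, 21171], [52947, -38929, 22977, -26045, -26045, 22977, -11208, -10914, 38109, -10914,
    38109], [34373, 22977, -64432, 20580, 20580, 35568, 38207, 1759, 16746, 1759, 16746], [-12843,
    -26045, 20580, -48687, 51313, 20580, 40137, 29066, -1667, 29066, -1667], [-12843, -26045,
    20580, 51313, -48687, 20580, 40137, 29066, -1667, 29066, -1667], [34373, 22977, 35568, 20580,
    20580, -64432, 38207, 1759, 16746, 1759, 16746], [26934, -11208, 38207, 40137, 40137, 38207,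
    -4661, -26339, -28269, -26339, -28269], [-26045, -10914, 1759, 29066, 29066, 1759, -26339,
    -43333, 29360, 56667, 29360], [21171, 38109, 16746, -1667, -1667, 16746, -28269, 29360,
    -52227, 29360, 47773], [-26045, -10914, 1759, 29066, 29066, 1759, -26339, 56667, 29360,
    -43333, 29360], [21171, 38109, 16746, -1667, -1667, 16746, -28269, 29360, 47773, 29360,
    -52227]]

def X0 : List (List ℤ) := [[61787, -89880, -79398, 33694, -28093, -28093, 33694, 28718, -17611,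
    44176, -17611, 44176], [17034, 64328, 55807, 98397, 81363, 81363, 98397, 60099, 72841, 89876,
    72841, 89876], [0, 0, 0, 0, 0, 0, 0, 0, 0, 0, 0, 0], [3500, -25042, 29864, -18043, -21543,
    -21543, -18043, -75644, 33364, 36864, 33364, 36864], [-60302, -60302, -60302, -15076, 45227,
    45227, -15076, 0, 45227, -15076, 45227, -15076], [0, 0, 0, 0, 0, 0, 0, 0, 0, 0, 0, 0], [0, 0,
    0, -46096, 26916, -49430, 68610, 0, -46096, -49430, 68610, 26916], [-11008, -17979, 36587,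
    -39994, -28987, -28987, -39994, 92245, 25580, 14572, 25580, 14572], [0, 0, 0, 0, 0, 0, 0, 0,
    0, 0, 0, 0], [0, 0, 0, -71508, 34517, 57296, -20305, 0, -71508, 57296, -20305, 34517], [0, 0,
    0, 0, 0, 0, 0, 0, 0, 0, 0, 0], [0, 0, 0, 16179, 74727, -42116, -48789, 0, 16179, -42116,
    -48789, 74727]]

def s0 : List ℤ := [-1, 1, -1, 1, 1, 1, -1, -1, 1, -1, -1, -1]

lemma low : (2 * (100000 : ℤ) * (2088684 : ℤ) : ℝ) ≤ energy G0 * (20004505962 : ℤ) := by
  have h : ∀ i j : Fin 11, (if G0.Adj i j then (1 : ℤ) else 0) = ent A0 i j := by decide +kernel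
  refine H25.GEn.lowerZ (G0.isHermitian_adjMatrix ℝ) (fun i j : Fin 11 => ent A0 i j)
    (fun i j => ?_) 100000 (by norm_num) (fun i j : Fin 11 => ent S0 i j) 2088684 20004505962
    (by decide +kernel) (by decide +kernel)
  simp only [adjMatrix_apply, ← h]
  split_ifs <;> simp

lemma up : ((10000000000 : ℕ) : ℝ) * energy (subdiv G0 0 1) ≤ (208609506108 : ℤ) := by
  have h : ∀ i j : Option (Fin 11), (if (subdiv G0 0 1).Adj i j then (1 : ℤ) else 0) =
      ent B0 (ix i) (ix j) := by decide +kernel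
  refine H25.GEn.upperZ _ (fun i j => ent B0 (ix i) (ix j)) (fun i j => ?_) _
    (fun i j => ent X0 (ix i) (ix j)) (fun t => s0.getD (ix t) 0) (by decide +kernel) _
    (by decide +kernel)
  simp only [adjMatrix_apply, ← h]
  split_ifs <;> simp

theorem result : ¬ ∀ (n : ℕ) (G : SimpleGraph (Fin n)) [DecidableRel G.Adj] (i j : Fin n),
    G.Adj i j → energy (subdiv G i j) < energy G → Cond1 G i j ∨ Cond2 G i j := by
  intro h
  have h1 := low
  have h2 := up
  push_cast at h1 h2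
  rcases h 11 G0 0 1 (by decide +kernel) (by linarith) with h3 | ⟨h3, _⟩
  · revert h3
    unfold Cond1
    decide +kernel
  · have : (6 : Fin 11) ∈ insert 0 (G0.neighborSet 0) := Or.inr (by decide +kernel : G0.Adj 0 6)
    rw [h3] at this
    rcases this with h4 | h4
    · exact absurd h4 (by decide)
    · exact absurd h4 (by decide +kernel : ¬ G0.Adj 1 6)

end Pool.Agent.Results.MP_8ce0fa_co.Cex
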